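import Pool.Agent.Helper13.HE.St

/-!
# Project HE (MP_a1f43d_co), module DCG: DEG, CLQ, GEN
-/

set_option autoImplicit false

open Module Classical
open scoped LinearAlgebra.Projectivization

namespace Pool.Agent.Helper89.HE

open Pool.Agent.Helper13.HE Pool.Agent.Helper53.PB

universe u v

section
variable {F : Type u} {V : Type v} [Field F] [AddCommGroup V] [Module F V]

private theorem polar_self_zero [Finite F] (Q : QuadraticForm F V) {h : ℕ}
    (hq : Nat.card F = 2 ^ h) (x : V) : QuadraticMap.polar Q x x = 0 := by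
  classical
  have hfin : Fintype F := Fintype.ofFinite F
  have hcard : Fintype.card F = 2 ^ h := by rw [← Nat.card_eq_fintype_card, hq]
  have hp : Fact (Nat.Prime 2) := ⟨Nat.prime_two⟩
  have hchar : CharP F 2 := charP_of_card_eq_prime_pow hcard
  rw [QuadraticMap.polar_self, two_smul]
  exact CharTwo.add_self_eq_zero _

private theorem polar_comb (Q : QuadraticForm F V) (u x y : V) (a b : F) :
    QuadraticMap.polar Q u (a • x + b • y) =
      a * QuadraticMap.polar Q u x + b * QuadraticMap.polar Q u y := by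
  rw [QuadraticMap.polar_add_right, QuadraticMap.polar_smul_right,
    QuadraticMap.polar_smul_right, smul_eq_mul, smul_eq_mul]

/-- `b P` vanishes on the line through perpendicular points -/
private theorem polar_line [Finite F] (Q : QuadraticForm F V) {h : ℕ}
    (hq : Nat.card F = 2 ^ h) {P R : ℙ F V} (hPR : QuadraticMap.polar Q P.rep R.rep = 0)
    {x : V} (hx : x ∈ line P R) : QuadraticMap.polar Q P.rep x = 0 := by
  obtain ⟨a, b, rfl⟩ := mem_line.1 hx
  rw [polar_comb, polar_self_zero Q hq, hPR, mul_zero, mul_zero, add_zero]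

end

theorem hDEG : StDEG.{u, v} := by
  intro F _ _ V _ _ _ Q T H m h j c K P hP hPK
  set AH := H.filter (fun R => R.rep ∈ K ∧ QuadraticMap.polar Q P.rep R.rep = 0) with hAH
  set L : Finset (Submodule F V) := AH.image (fun R => line P R) with hL
  have hne : ∀ R ∈ H, R ≠ P := by
    rintro R hR rfl
    exact c.dis R hR hP
  have hmAH : ∀ R, R ∈ AH ↔ R ∈ H ∧ R.rep ∈ K ∧ QuadraticMap.polar Q P.rep R.rep = 0 := by
    intro R
    rw [hAH, Finset.mem_filter]
  -- the covering
  have h1 : T.filter (fun X => X.rep ∈ K ∧ X ≠ P ∧ QuadraticMap.polar Q P.rep X.rep = 0) ⊆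
      L.biUnion (fun l => (T.filter (fun X => X.rep ∈ l)).erase P) := by
    intro X hX
    rw [Finset.mem_filter] at hX
    obtain ⟨hXT, hXK, hXP, hb⟩ := hX
    have hln := c.ln P hP X hXP (c.sT X hXT) hb
    have h2 : 2 ≤ tt T (line P X) := by
      unfold tt
      have hsub : ({P, X} : Finset (ℙ F V)) ⊆ T.filter (fun y => y.rep ∈ line P X) := by
        intro y hy
        rw [Finset.mem_insert, Finset.mem_singleton] at hy
        rw [Finset.mem_filter]
        rcases hy with rfl | rfl
        · exact ⟨hP, left_mem_line _ _⟩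
        · exact ⟨hXT, right_mem_line _ _⟩
      have := Finset.card_le_card hsub
      rw [Finset.card_pair (Ne.symm hXP)] at this
      exact this
    have h3 : 0 < mass H m (line P X) := by omega
    obtain ⟨R, hR, -⟩ : ∃ R ∈ H.filter (fun R => R.rep ∈ line P X), m R ≠ 0 := by
      by_contra hcon
      push Not at hcon
      have : mass H m (line P X) = 0 := by
        unfold mass
        exact Finset.sum_eq_zero hcon
      omega
    rw [Finset.mem_filter] at hR
    obtain ⟨hRH, hRl⟩ := hR
    have hRP := hne R hRH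
    have hRK : R.rep ∈ K := line_le hPK hXK hRl
    have hbR : QuadraticMap.polar Q P.rep R.rep = 0 := polar_line Q c.hq hb hRl
    rw [Finset.mem_biUnion]
    refine ⟨line P R, Finset.mem_image.2 ⟨R, (hmAH R).2 ⟨hRH, hRK, hbR⟩, rfl⟩, ?_⟩
    rw [Finset.mem_erase, Finset.mem_filter]
    refine ⟨hXP, hXT, ?_⟩
    rw [line_eq (Ne.symm hXP) hRl hRP]
    exact right_mem_line _ _
  -- the number of points on every line
  have h2 : ∀ l ∈ L, ((T.filter (fun X => X.rep ∈ l)).erase P).card = mass H m l := by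
    intro l hl
    obtain ⟨R, hR, rfl⟩ := Finset.mem_image.1 hl
    obtain ⟨hRH, hRK, hbR⟩ := (hmAH R).1 hR
    have hln := c.ln P hP R (hne R hRH) (c.sH R hRH) hbR
    unfold tt at hln
    rw [Finset.card_erase_of_mem (Finset.mem_filter.2 ⟨hP, left_mem_line _ _⟩), hln]
    omega
  -- the masses
  have h3 : ∑ l ∈ L, mass H m l ≤ ∑ R ∈ AH, m R := by
    have hmaps : ∀ R ∈ AH, line P R ∈ L := fun R hR => Finset.mem_image.2 ⟨R, hR, rfl⟩
    rw [← Finset.sum_fiberwise_of_maps_to hmaps]
    refine Finset.sum_le_sum fun l hl => ?_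
    unfold mass
    refine Finset.sum_le_sum_of_subset ?_
    intro R hR
    rw [Finset.mem_filter] at hR
    obtain ⟨hRH, hRl⟩ := hR
    obtain ⟨R0, hR0, rfl⟩ := Finset.mem_image.1 hl
    obtain ⟨hR0H, hR0K, hbR0⟩ := (hmAH R0).1 hR0
    rw [Finset.mem_filter, hmAH]
    exact ⟨⟨hRH, line_le hPK hR0K hRl, polar_line Q c.hq hbR0 hRl⟩,
      line_eq (Ne.symm (hne R0 hR0H)) hRl (hne R hRH)⟩
  calc (T.filter (fun X => X.rep ∈ K ∧ X ≠ P ∧ QuadraticMap.polar Q P.rep X.rep = 0)).card
      ≤ (L.biUnion (fun l => (T.filter (fun X => X.rep ∈ l)).erase P)).card :=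
        Finset.card_le_card h1
    _ ≤ ∑ l ∈ L, ((T.filter (fun X => X.rep ∈ l)).erase P).card := Finset.card_biUnion_le
    _ = ∑ l ∈ L, mass H m l := Finset.sum_congr rfl h2
    _ ≤ ∑ R ∈ AH, m R := h3

theorem hCLQ (hDEG : StDEG.{u, v}) : StCLQ.{u, v} := by
  intro F _ _ V _ _ _ Q T H m h j c
  have h2 : ∀ P ∈ T, (T.filter (fun X => QuadraticMap.polar Q P.rep X.rep = 0)).card ≤ 1 + j := by
    intro P hP
    have hd := hDEG F V Q T H m h j c ⊤ P hP trivial
    have hsub : T.filter (fun X => QuadraticMap.polar Q P.rep X.rep = 0) ⊆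
        insert P (T.filter (fun X => X.rep ∈ (⊤ : Submodule F V) ∧ X ≠ P ∧
          QuadraticMap.polar Q P.rep X.rep = 0)) := by
      intro X hX
      rw [Finset.mem_filter] at hX
      rw [Finset.mem_insert, Finset.mem_filter]
      by_cases hXP : X = P
      · exact Or.inl hXP
      · exact Or.inr ⟨hX.1, trivial, hXP, hX.2⟩
    have h3 := Finset.card_le_card hsub
    have h4 := Finset.card_insert_le P (T.filter (fun X => X.rep ∈ (⊤ : Submodule F V) ∧ X ≠ P ∧
          QuadraticMap.polar Q P.rep X.rep = 0))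
    have h5 : ∑ R ∈ H.filter (fun R => R.rep ∈ (⊤ : Submodule F V) ∧
        QuadraticMap.polar Q P.rep R.rep = 0), m R ≤ ∑ R ∈ H, m R :=
      Finset.sum_le_sum_of_subset (Finset.filter_subset _ _)
    rw [c.ms] at h5
    omega
  refine ⟨fun E hE => ?_, h2⟩
  by_cases hex : ∃ P ∈ T, P.rep ∈ E
  · obtain ⟨P, hP, hPE⟩ := hex
    refine le_trans (Finset.card_le_card ?_) (h2 P hP)
    intro X hX
    rw [Finset.mem_filter] at hX ⊢
    exact ⟨hX.1, hE P hP hPE X hX.1 hX.2⟩
  · push Not at hex
    have : tt T E = 0 := by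
      unfold tt
      rw [Finset.card_eq_zero, Finset.filter_eq_empty_iff]
      exact fun {X} hX => hex X hX
    omega

theorem hGEN (hRKB : StRKB.{u, v}) (hDEG : StDEG.{u, v}) : StGEN.{u, v} := by
  intro F _ _ V _ _ _ Q T H m h j c u hu hR
  set g : Dual F V := QuadraticMap.polarBilin Q u with hg
  have hgx : ∀ x, g x = QuadraticMap.polar Q u x := fun x => rfl
  have hg0 : g ≠ 0 := by
    intro h0
    apply hu
    apply c.nd
    intro y
    rw [← hgx, h0]
    rfl
  have hfr := Module.Dual.finrank_ker_add_one_of_ne_zero hg0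
  rw [c.hd] at hfr
  have hK : finrank F (LinearMap.ker g) = 8 + 1 := by omega
  have hmem : ∀ x, x ∈ LinearMap.ker g ↔ QuadraticMap.polar Q u x = 0 := by
    intro x
    rw [LinearMap.mem_ker, hgx]
  have key := hRKB F V Q h 8 c.hq c.h1 (LinearMap.ker g) u
    ((hmem u).2 (polar_self_zero Q c.hq u)) hu (fun x hx => (hmem x).1 hx) hK
    (T.filter (fun P => QuadraticMap.polar Q u P.rep = 0))
    (fun P hP => (hmem _).2 (Finset.mem_filter.1 hP).2) ?_
  · unfold nu
    rw [c.hq]
    refine key.trans (le_of_eq ?_)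
    rw [← pow_mul, mul_comm h 3, pow_mul]
    norm_num
  · intro P hP X hX hPX hb
    rw [Finset.mem_filter] at hP hX
    have hd := hDEG F V Q T H m h j c (LinearMap.ker g) P hP.1 ((hmem _).2 hP.2)
    have hz : ∑ R ∈ H.filter (fun R => R.rep ∈ LinearMap.ker g ∧
        QuadraticMap.polar Q P.rep R.rep = 0), m R = 0 := by
      have : H.filter (fun R => R.rep ∈ LinearMap.ker g ∧
        QuadraticMap.polar Q P.rep R.rep = 0) = ∅ := by
        rw [Finset.filter_eq_empty_iff]
        intro R hRH hcon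
        exact hR R hRH ((hmem _).1 hcon.1)
      rw [this, Finset.sum_empty]
    rw [hz, Nat.le_zero, Finset.card_eq_zero, Finset.filter_eq_empty_iff] at hd
    exact hd hX.1 ⟨(hmem _).2 hX.2, Ne.symm hPX, hb⟩

end Pool.Agent.Helper89.HE
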